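import Pool.Agent.helper93.FR.Spec

namespace Pool.Agent.helper52.FR

open Pool.Agent.helper93.FR

theorem Arr_subset (c : Type) [Fintype c] [DecidableEq c] (B : ℕ) :
    {f : c → ℕ | ∑ x, f x ≤ B} ⊆
      Set.range (fun (g : Fin B → Option c) (x : c) =>
        (Finset.univ.filter fun i => g i = some x).card) := by
  intro f hf
  have hcard : Fintype.card (Σ x : c, Fin (f x)) ≤ Fintype.card (Fin B) := by
    simpa using hf
  obtain ⟨e⟩ := Function.Embedding.nonempty_of_card_le hcard
  refine ⟨Function.extend e (fun s => some s.1) (fun _ => none), ?_⟩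
  funext x
  have h1 : (Finset.univ.filter fun i =>
      Function.extend e (fun s => some s.1) (fun _ => none) i = some x)
      = (Finset.univ.filter fun s : (Σ x : c, Fin (f x)) => s.1 = x).map e := by
    ext i
    simp only [Finset.mem_filter, Finset.mem_univ, true_and, Finset.mem_map]
    constructor
    · intro h
      by_cases hi : ∃ s, e s = i
      · obtain ⟨s, rfl⟩ := hi
        rw [e.injective.extend_apply] at h
        exact ⟨s, by simpa using h, rfl⟩
      · rw [Function.extend_apply' _ _ _ hi] at h
        exact absurd h (by simp)
    · rintro ⟨s, hs, rfl⟩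
      rw [e.injective.extend_apply, hs]
  show (Finset.univ.filter fun i =>
      Function.extend e (fun s => some s.1) (fun _ => none) i = some x).card = f x
  rw [h1, Finset.card_map]
  have h2 : (Finset.univ.filter fun s : (Σ x : c, Fin (f x)) => s.1 = x)
      = (Finset.univ : Finset (Fin (f x))).map
        ⟨fun t => (⟨x, t⟩ : Σ x : c, Fin (f x)), fun a b h => by simpa using h⟩ := by
    ext ⟨y, t⟩
    simp only [Finset.mem_filter, Finset.mem_univ, true_and, Finset.mem_map,
      Function.Embedding.coeFn_mk]
    constructor
    · intro h
      subst h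
      exact ⟨t, rfl⟩
    · rintro ⟨a, ha⟩
      exact (congrArg Sigma.fst ha).symm
  rw [h2, Finset.card_map, Finset.card_univ, Fintype.card_fin]

theorem Arr : Arr_stmt := by
  intro c _ _ B
  have hs := Arr_subset c B
  have hfin : (Set.range (fun (g : Fin B → Option c) (x : c) =>
        (Finset.univ.filter fun i => g i = some x).card)).Finite := Set.finite_range _
  refine ⟨hfin.subset hs, ?_⟩
  refine (Set.ncard_le_ncard hs hfin).trans ?_
  have h := Set.ncard_image_le (s := (Set.univ : Set (Fin B → Option c)))
    (f := fun (g : Fin B → Option c) (x : c) =>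
        (Finset.univ.filter fun i => g i = some x).card) Set.finite_univ
  rw [Set.image_univ] at h
  refine h.trans ?_
  rw [Set.ncard_univ, Nat.card_eq_fintype_card, Fintype.card_fun, Fintype.card_option,
    Fintype.card_fin]

end Pool.Agent.helper52.FR
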